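import Pool.Agent.W996.EC.QStm

/-! # Dichotomy for entire families -/

set_option autoImplicit false

open Filter Topology Polynomial Set

namespace W973.EC

open Pool.Agent.W996.EC

theorem zeros_countable {f : ℂ → ℂ} (hf : Differentiable ℂ f) {z0 : ℂ} (hne : f z0 ≠ 0) :
    {z | f z = 0}.Countable := by
  have hh : AnalyticOnNhd ℂ f univ := hf.differentiableOn.analyticOnNhd isOpen_univ
  rcases hh.eqOn_zero_or_eventually_ne_zero_of_preconnected isPreconnected_univ with h0 | h0
  · exact absurd (h0 (mem_univ z0)) hne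
  · have h1 : ({z | f z ≠ 0}ᶜ ∩ univ).Countable := by
      apply (HereditarilyLindelofSpace.isLindelof _).countable_of_isDiscrete
        (isDiscrete_of_codiscreteWithin _)
      have : {z | f z ≠ 0} ∈ codiscreteWithin (univ : Set ℂ) := h0
      refine mem_of_superset (inter_mem this (Filter.self_mem_codiscreteWithin univ)) ?_
      intro z hz hz2
      exact hz2 hz.1
    refine h1.mono ?_
    intro z hz
    exact ⟨by simpa using hz, mem_univ z⟩

/-- an entire function with uncountably many zeros is zero -/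
theorem eq_zero_of_unc {f : ℂ → ℂ} (hf : Differentiable ℂ f) {Y : Set ℂ} (hY : ¬ Y.Countable)
    (h : ∀ s ∈ Y, f s = 0) (s : ℂ) : f s = 0 := by
  by_contra hne
  exact hY ((zeros_countable hf hne).mono h)

variable {n K : ℕ}

/-- the polynomial of the family at the parameter `s` -/
noncomputable def PP (f : Fin K → ℂ → ℂ) (P : Fin K → MvPolynomial (Fin n) ℂ[X][X]) (s : ℂ) :
    MvPolynomial (Fin n) ℂ[X][X] := ∑ k, MvPolynomial.C (C (C (f k s))) * P k

theorem spec_PP (f : Fin K → ℂ → ℂ) (P : Fin K → MvPolynomial (Fin n) ℂ[X][X]) (s z v : ℂ) :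
    spec (PP f P s) z v = ∑ k, MvPolynomial.C (f k s) * spec (P k) z v := by
  unfold PP spec
  rw [map_sum]
  refine Finset.sum_congr rfl fun k _ => ?_
  rw [map_mul, MvPolynomial.map_C]
  congr 2
  simp

theorem eval_PP (f : Fin K → ℂ → ℂ) (P : Fin K → MvPolynomial (Fin n) ℂ[X][X]) (s z v : ℂ)
    (x : Fin n → ℂ) : MvPolynomial.eval x (spec (PP f P s) z v) =
      ∑ k, f k s * MvPolynomial.eval x (spec (P k) z v) := by
  rw [spec_PP, map_sum]
  refine Finset.sum_congr rfl fun k _ => ?_
  rw [map_mul, MvPolynomial.eval_C]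

theorem coeff_PP (f : Fin K → ℂ → ℂ) (P : Fin K → MvPolynomial (Fin n) ℂ[X][X]) (s z v : ℂ)
    (m : Fin n →₀ ℕ) : MvPolynomial.coeff m (spec (PP f P s) z v) =
      ∑ k, f k s * MvPolynomial.coeff m (spec (P k) z v) := by
  rw [spec_PP, MvPolynomial.coeff_sum]
  refine Finset.sum_congr rfl fun k _ => ?_
  rw [MvPolynomial.coeff_C_mul]

theorem t_dich (h1 : S_cnt) : S_dich := by
  intro n F h R hC hI K f P hf
  set T := TT F h with hT
  set X : Set ℂ := {s : ℂ | ∃ e ∈ ET T R,
    ∑ k, f k s * MvPolynomial.eval e.2 (spec (P k) e.1.1 e.1.2) = 0} with hX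
  by_cases hY : Xᶜ.Countable
  · exact Or.inr hY
  left
  rcases (ET T R).eq_empty_or_nonempty with hem | ⟨e0, he0⟩
  · have : X = ∅ := by
      rw [Set.eq_empty_iff_forall_notMem]
      rintro s ⟨e, he, -⟩
      rw [hem] at he
      exact he
    rw [this]
    exact Set.countable_empty
  obtain ⟨Z, hZ, hcnt⟩ := h1 n F h R hC hI
  have hmem : ∀ s ∈ Xᶜ, ∃ Q ∈ Z, ∃ c : ℂ, c ≠ 0 ∧
      ∀ p ∈ T, spec (PP f P s) p.1 p.2 = MvPolynomial.C c * spec Q p.1 p.2 := by
    intro s hs
    apply hcnt
    intro e he h0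
    rw [eval_PP] at h0
    exact hs ⟨e, he, h0⟩
  obtain ⟨Q, hQ, hQu⟩ : ∃ Q ∈ Z, ¬ {s | s ∈ Xᶜ ∧ ∃ c : ℂ, c ≠ 0 ∧
      ∀ p ∈ T, spec (PP f P s) p.1 p.2 = MvPolynomial.C c * spec Q p.1 p.2}.Countable := by
    by_contra hcon
    push Not at hcon
    apply hY
    refine (hZ.biUnion hcon).mono ?_
    intro s hs
    obtain ⟨Q, hQ, hc⟩ := hmem s hs
    exact Set.mem_biUnion hQ ⟨hs, hc⟩
  set YQ := {s | s ∈ Xᶜ ∧ ∃ c : ℂ, c ≠ 0 ∧
      ∀ p ∈ T, spec (PP f P s) p.1 p.2 = MvPolynomial.C c * spec Q p.1 p.2} with hYQ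
  obtain ⟨s0, hs0⟩ : YQ.Nonempty := by
    rw [Set.nonempty_iff_ne_empty]
    intro he
    exact hQu (by rw [he]; exact Set.countable_empty)
  -- `Q` has no zeros
  have hQ0 : ∀ e ∈ ET T R, MvPolynomial.eval e.2 (spec Q e.1.1 e.1.2) ≠ 0 := by
    intro e he h0
    obtain ⟨hs0X, c, -, hc⟩ := hs0
    apply hs0X
    refine ⟨e, he, ?_⟩
    rw [← eval_PP, hc e.1 he.1, map_mul, h0, mul_zero]
  have hne : spec Q e0.1.1 e0.1.2 ≠ 0 := by
    intro h0
    apply hQ0 e0 he0
    rw [h0, map_zero]
  obtain ⟨m0, hm0⟩ := MvPolynomial.ne_zero_iff.1 hne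
  set a := MvPolynomial.coeff m0 (spec Q e0.1.1 e0.1.2) with ha
  set c : ℂ → ℂ := fun s => MvPolynomial.coeff m0 (spec (PP f P s) e0.1.1 e0.1.2) with hc
  have hdiff : ∀ (m : Fin n →₀ ℕ) (z v : ℂ),
      Differentiable ℂ (fun s => MvPolynomial.coeff m (spec (PP f P s) z v)) := by
    intro m z v
    simp_rw [coeff_PP]
    exact Differentiable.fun_sum fun k _ => (hf k).mul_const _
  have hall : ∀ (s : ℂ) (m : Fin n →₀ ℕ), ∀ p ∈ T,
      MvPolynomial.coeff m (spec (PP f P s) p.1 p.2) * a -
        c s * MvPolynomial.coeff m (spec Q p.1 p.2) = 0 := by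
    intro s m p hp
    refine eq_zero_of_unc (f := fun s => MvPolynomial.coeff m (spec (PP f P s) p.1 p.2) * a -
        c s * MvPolynomial.coeff m (spec Q p.1 p.2)) ?_ hQu ?_ s
    · exact ((hdiff m p.1 p.2).mul_const _).sub ((hdiff m0 _ _).mul_const _)
    · rintro s ⟨-, c1, -, hc1⟩
      simp only [hc, ha]
      rw [hc1 p hp, hc1 e0.1 he0.1, MvPolynomial.coeff_C_mul, MvPolynomial.coeff_C_mul]
      ring
  have hprop : ∀ (s : ℂ), ∀ p ∈ T, MvPolynomial.C a * spec (PP f P s) p.1 p.2 =
      MvPolynomial.C (c s) * spec Q p.1 p.2 := by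
    intro s p hp
    ext m
    rw [MvPolynomial.coeff_C_mul, MvPolynomial.coeff_C_mul]
    linear_combination hall s m p hp
  have hsub : X ⊆ {s | c s = 0} := by
    rintro s ⟨e, he, h0⟩
    have h2 := congrArg (MvPolynomial.eval e.2) (hprop s e.1 he.1)
    rw [map_mul, map_mul, eval_PP, h0, mul_zero, MvPolynomial.eval_C] at h2
    exact (mul_eq_zero.1 h2.symm).resolve_right (hQ0 e he)
  have hc0 : c s0 ≠ 0 := by
    obtain ⟨-, c1, hc1, hc2⟩ := hs0
    simp only [hc]
    rw [hc2 e0.1 he0.1, MvPolynomial.coeff_C_mul]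
    exact mul_ne_zero hc1 hm0
  exact (zeros_countable (hdiff m0 _ _) hc0).mono hsub

/-! ### Regular functions -/

theorem reg_mul {T : Set (ℂ × ℂ)} {g g' : ℂ × ℂ → ℂ} (h : Reg T g) (h' : Reg T g') :
    Reg T (fun p => g p * g' p) := by
  obtain ⟨A, B, hAB⟩ := h
  obtain ⟨A', B', hAB'⟩ := h'
  refine ⟨A * A', B * B', fun p hp => ⟨?_, ?_⟩⟩
  · rw [evalEval_mul]
    exact mul_ne_zero (hAB p hp).1 (hAB' p hp).1
  · change g p * g' p = _
    rw [evalEval_mul, evalEval_mul, (hAB p hp).2, (hAB' p hp).2, div_mul_div_comm]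

theorem reg_one {T : Set (ℂ × ℂ)} : Reg T (fun _ => 1) :=
  ⟨1, 1, fun p _ => by simp [evalEval]⟩

theorem reg_inv {T : Set (ℂ × ℂ)} {g : ℂ × ℂ → ℂ} (h : Reg T g) (h0 : ∀ p ∈ T, g p ≠ 0) :
    Reg T (fun p => (g p)⁻¹) := by
  obtain ⟨A, B, hAB⟩ := h
  refine ⟨B, A, fun p hp => ⟨?_, ?_⟩⟩
  · intro hA
    apply h0 p hp
    rw [(hAB p hp).2, hA, zero_div]
  · change (g p)⁻¹ = _
    rw [(hAB p hp).2, inv_div]

theorem reg_pow {T : Set (ℂ × ℂ)} {g : ℂ × ℂ → ℂ} (h : Reg T g) (k : ℕ) :
    Reg T (fun p => g p ^ k) := by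
  induction k with
  | zero => simpa using reg_one
  | succ k ih =>
    have := reg_mul ih h
    simpa only [pow_succ] using this

theorem reg_zpow {T : Set (ℂ × ℂ)} {g : ℂ × ℂ → ℂ} (h : Reg T g) (h0 : ∀ p ∈ T, g p ≠ 0) (k : ℤ) :
    Reg T (fun p => g p ^ k) := by
  cases k with
  | ofNat k => simpa only [Int.ofNat_eq_natCast, zpow_natCast] using reg_pow h k
  | negSucc k =>
    simp only [zpow_negSucc]
    exact reg_inv (reg_pow h (k + 1)) (fun p hp => pow_ne_zero _ (h0 p hp))

theorem reg_prod {T : Set (ℂ × ℂ)} {R : Fin n → ℂ × ℂ → ℂ} (hR : ∀ i, Reg T (R i))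
    (hR0 : ∀ i, ∀ p ∈ T, R i p ≠ 0) (b : Fin n → ℤ) :
    Reg T (fun p => ∏ i, R i p ^ b i) := by
  classical
  have : ∀ s : Finset (Fin n), Reg T (fun p => ∏ i ∈ s, R i p ^ b i) := by
    intro s
    induction s using Finset.induction_on with
    | empty => simpa using reg_one
    | insert i s hi ih =>
      simp only [Finset.prod_insert hi]
      exact reg_mul (reg_zpow (hR i) (hR0 i) (b i)) ih
  exact this Finset.univ

theorem evalEval_sum' (A : ℂ[X][X]) (z v : ℂ) :
    A.evalEval z v = ∑ i ∈ Finset.range (A.natDegree + 1), (A.coeff i).eval z * v ^ i := by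
  rw [← map_evalRingHom_eval, eval_eq_sum_range' (n := A.natDegree + 1)]
  · simp [coeff_map]
  · exact Nat.lt_succ_of_le natDegree_map_le

theorem cont_evalEval' (A : ℂ[X][X]) : Continuous fun p : ℂ × ℂ => A.evalEval p.1 p.2 := by
  simp_rw [evalEval_sum']
  exact continuous_finsetSum _ fun i _ =>
    ((A.coeff i).continuous.comp continuous_fst).mul (continuous_snd.pow i)

theorem reg_cont' {T : Set (ℂ × ℂ)} {g : ℂ × ℂ → ℂ} (hg : Reg T g) : ContinuousOn g T := by
  obtain ⟨A, B, hAB⟩ := hg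
  refine ContinuousOn.congr (f := fun p : ℂ × ℂ => A.evalEval p.1 p.2 / B.evalEval p.1 p.2) ?_
    (fun p hp => (hAB p hp).2)
  exact (cont_evalEval' A).continuousOn.div (cont_evalEval' B).continuousOn
    (fun p hp => (hAB p hp).1)

/-- a regular function with a constant power is constant -/
theorem const_of_pow {T : Set (ℂ × ℂ)} (hT : IsPreconnected T) {g : ℂ × ℂ → ℂ} (hg : Reg T g)
    (hg0 : ∀ p ∈ T, g p ≠ 0) (k : ℤ) (hk : k ≠ 0) (c : ℂ) (h : ∀ p ∈ T, g p ^ k = c)
    (p0 : ℂ × ℂ) (hp0 : p0 ∈ T) : ∀ p ∈ T, g p = g p0 := by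
  have hfin : {w : ℂ | w ^ k.natAbs = g p0 ^ k.natAbs}.Finite := by
    have hk' : 0 < k.natAbs := Int.natAbs_pos.2 hk
    refine ((nthRootsFinset k.natAbs (1 : ℂ)).finite_toSet.image (fun w => w * g p0)).subset ?_
    intro w hw
    refine ⟨w / g p0, ?_, div_mul_cancel₀ _ (hg0 p0 hp0)⟩
    rw [Finset.mem_coe, mem_nthRootsFinset hk', div_pow]
    have : w ^ k.natAbs = g p0 ^ k.natAbs := hw
    rw [this, div_self (pow_ne_zero _ (hg0 p0 hp0))]
  intro p hp
  refine hT.constant_of_mapsTo hfin.isDiscrete (reg_cont' hg) (fun q hq => ?_) hp hp0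
  have h1 : g q ^ k = g p0 ^ k := by rw [h q hq, h p0 hp0]
  change g q ^ k.natAbs = g p0 ^ k.natAbs
  rcases Int.natAbs_eq k with hk2 | hk2
  · rw [hk2, zpow_natCast, zpow_natCast] at h1
    exact h1
  · rw [hk2, zpow_neg, zpow_neg, inv_inj, zpow_natCast, zpow_natCast] at h1
    exact h1

/-- a nonzero integer vector is a multiple of a member of a basis -/
theorem exists_basis (m : Fin n → ℤ) (hm : m ≠ 0) :
    ∃ (b : Module.Basis (Fin n) ℤ (Fin n → ℤ)) (i0 : Fin n) (g : ℤ), g ≠ 0 ∧ m = g • b i0 := by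
  classical
  obtain ⟨k, bM, bN, f, a, snf⟩ :=
    Submodule.smithNormalForm (Pi.basisFun ℤ (Fin n)) (Submodule.span ℤ {m})
  have hk : k = 1 := by
    have h1 := Module.finrank_eq_card_basis bN
    rw [Fintype.card_fin, ← (LinearEquiv.toSpanNonzeroSingleton ℤ _ m hm).finrank_eq,
      Module.finrank_self] at h1
    exact h1.symm
  subst hk
  have hmem : m ∈ Submodule.span ℤ {m} := Submodule.mem_span_singleton_self m
  have h2 := bN.sum_repr ⟨m, hmem⟩
  rw [Fin.sum_univ_one] at h2
  have h3 : m = (bN.repr ⟨m, hmem⟩ 0 * a 0) • bM (f 0) := by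
    have h4 := congrArg Subtype.val h2
    rw [Submodule.coe_smul, snf, smul_smul] at h4
    exact h4.symm
  refine ⟨bM, f 0, _, ?_, h3⟩
  intro h0
  rw [h0, zero_smul] at h3
  exact hm h3

theorem eval_spec_bind {n' : ℕ} (sub : Fin n → MvPolynomial (Fin n') ℂ[X][X])
    (P : MvPolynomial (Fin n) ℂ[X][X]) (ξ : Fin n' → ℂ) (z v : ℂ) :
    MvPolynomial.eval ξ (spec (MvPolynomial.bind₁ sub P) z v) =
      MvPolynomial.eval (fun i => MvPolynomial.eval ξ (spec (sub i) z v)) (spec P z v) := by
  unfold spec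
  rw [MvPolynomial.map_bind₁]
  change MvPolynomial.eval₂Hom (RingHom.id ℂ) ξ _ = _
  rw [MvPolynomial.eval₂Hom_bind₁]
  rfl

theorem t_dich' (h1 : S_dich) (h2 : S_conn) : S_dich' := by
  intro n
  induction n with
  | zero =>
    intro F h R hC hR hR0 K f P hf
    refine h1 0 F h R hC ⟨hR, hR0, ?_⟩ K f P hf
    intro m hm
    exact absurd (Subsingleton.elim m 0) hm
  | succ n ih =>
    intro F h R hC hR hR0 K f P hf
    by_cases hI : Indep (TT F h) R
    · exact h1 (n + 1) F h R hC hI K f P hf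
    obtain ⟨m, hm, c0, hc0⟩ : ∃ m : Fin (n + 1) → ℤ, m ≠ 0 ∧
        ∃ c : ℂ, ∀ p ∈ TT F h, ∏ i, R i p ^ m i = c := by
      by_contra hcon
      apply hI
      refine ⟨hR, hR0, fun m hm hc => hcon ⟨m, hm, hc⟩⟩
    set T := TT F h with hT
    rcases T.eq_empty_or_nonempty with hem | ⟨p0, hp0⟩
    · left
      have : {s : ℂ | ∃ e ∈ ET T R,
          ∑ k, f k s * MvPolynomial.eval e.2 (spec (P k) e.1.1 e.1.2) = 0} = ∅ := by
        rw [Set.eq_empty_iff_forall_notMem]
        rintro s ⟨e, he, -⟩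
        have := he.1
        rw [hem] at this
        exact this
      rw [this]
      exact Set.countable_empty
    obtain ⟨b, i0, g, hg, hmg⟩ := exists_basis m hm
    -- the new units
    set S : Fin (n + 1) → ℂ × ℂ → ℂ := fun j p => ∏ i, R i p ^ b j i with hS
    have hSreg : ∀ j, Reg T (S j) := fun j => reg_prod hR hR0 (b j)
    have hS0 : ∀ j, ∀ p ∈ T, S j p ≠ 0 := fun j p hp =>
      Finset.prod_ne_zero_iff.2 fun i _ => zpow_ne_zero _ (hR0 i p hp)
    have hconst : ∀ p ∈ T, S i0 p = S i0 p0 := by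
      refine const_of_pow (h2 F h hC) (hSreg i0) (hS0 i0) g hg c0 (fun p hp => ?_) p0 hp0
      rw [← hc0 p hp, hS]
      simp only
      rw [← Finset.prod_zpow]
      refine Finset.prod_congr rfl fun i _ => ?_
      rw [← zpow_mul, hmg, Pi.smul_apply, smul_eq_mul, mul_comm]
    set c1 := S i0 p0 with hc1
    have hc1ne : c1 ≠ 0 := hS0 i0 p0 hp0
    set lam := Complex.log c1 with hlam
    have hexplam : Complex.exp lam = c1 := Complex.exp_log hc1ne
    -- the inverse matrix
    set V : Fin (n + 1) → Fin (n + 1) → ℤ := fun i j => b.repr (Pi.single i 1) j with hV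
    have hVb : ∀ i k, ∑ j, V i j * b j k = (Pi.single i 1 : Fin (n + 1) → ℤ) k := by
      intro i k
      have h3 := congrFun (b.sum_repr (Pi.single i 1)) k
      rw [← h3, Finset.sum_apply]
      refine Finset.sum_congr rfl fun j _ => ?_
      rw [Pi.smul_apply, smul_eq_mul]
    set th : ℤ → ℂ := fun N => lam + N * (2 * Real.pi * Complex.I) with hth
    have hexpth : ∀ N, Complex.exp (th N) = c1 := by
      intro N
      rw [hth]
      simp only
      rw [Complex.exp_add, Complex.exp_int_mul_two_pi_mul_I, mul_one, hexplam]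
    -- the substitution
    set sb : ℤ → Fin (n + 1) → MvPolynomial (Fin n) ℂ[X][X] := fun N i =>
      MvPolynomial.C (C (C ((V i i0 : ℂ) * th N))) +
        ∑ j' : Fin n, MvPolynomial.C (C (C ((V i (i0.succAbove j') : ℤ) : ℂ))) *
          MvPolynomial.X j' with hsb
    have hsbe : ∀ N i (ξ : Fin n → ℂ) (z v : ℂ), MvPolynomial.eval ξ (spec (sb N i) z v) =
        (V i i0 : ℂ) * th N + ∑ j' : Fin n, ((V i (i0.succAbove j') : ℤ) : ℂ) * ξ j' := by
      intro N i ξ z v
      rw [hsb]
      unfold spec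
      simp only [map_add, map_sum, map_mul, MvPolynomial.map_C, MvPolynomial.map_X,
        MvPolynomial.eval_C, MvPolynomial.eval_X]
      congr 1
      · simp
      · refine Finset.sum_congr rfl fun j _ => ?_
        simp
    set X : Set ℂ := {s : ℂ | ∃ e ∈ ET T R,
      ∑ k, f k s * MvPolynomial.eval e.2 (spec (P k) e.1.1 e.1.2) = 0} with hX
    set XN : ℤ → Set ℂ := fun N => {s : ℂ | ∃ e ∈ ET T (fun j' : Fin n => S (i0.succAbove j')),
      ∑ k, f k s * MvPolynomial.eval e.2
        (spec (MvPolynomial.bind₁ (sb N) (P k)) e.1.1 e.1.2) = 0} with hXN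
    have hdich : ∀ N, (XN N).Countable ∨ (XN N)ᶜ.Countable := by
      intro N
      exact ih F h (fun j' => S (i0.succAbove j')) hC (fun j' => hSreg _) (fun j' => hS0 _) K f
        (fun k => MvPolynomial.bind₁ (sb N) (P k)) hf
    have hXeq : X = ⋃ N, XN N := by
      ext s
      rw [Set.mem_iUnion]
      constructor
      · rintro ⟨⟨p, x⟩, ⟨hp, hx⟩, h0⟩
        change p ∈ T at hp
        change ∀ i, Complex.exp (x i) = R i p at hx
        change ∑ k, f k s * MvPolynomial.eval x (spec (P k) p.1 p.2) = 0 at h0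
        set ξ : Fin (n + 1) → ℂ := fun j => ∑ i, (b j i : ℂ) * x i with hξ
        have hexpξ : ∀ j, Complex.exp (ξ j) = S j p := by
          intro j
          rw [hξ, hS]
          simp only
          rw [Complex.exp_sum]
          refine Finset.prod_congr rfl fun i _ => ?_
          rw [Complex.exp_int_mul, hx]
        obtain ⟨N, hN⟩ : ∃ N : ℤ, ξ i0 = th N := by
          have h3 : Complex.exp (ξ i0) = Complex.exp lam := by
            rw [hexpξ, hconst p hp, hexplam]
          obtain ⟨N, hN⟩ := Complex.exp_eq_exp_iff_exists_int.1 h3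
          exact ⟨N, hN⟩
        refine ⟨N, (p, fun j' => ξ (i0.succAbove j')), ⟨hp, fun j' => hexpξ _⟩, ?_⟩
        change ∑ k, f k s * MvPolynomial.eval (fun j' => ξ (i0.succAbove j'))
          (spec (MvPolynomial.bind₁ (sb N) (P k)) p.1 p.2) = 0
        rw [← h0]
        refine Finset.sum_congr rfl fun k _ => ?_
        rw [eval_spec_bind]
        congr 2
        congr 1
        funext i
        rw [hsbe, ← hN, ← Fin.sum_univ_succAbove (fun j => (V i j : ℂ) * ξ j) i0, hξ]
        simp only [Finset.mul_sum]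
        rw [Finset.sum_comm]
        have h5 : ∀ k, ∑ j, (V i j : ℂ) * ((b j k : ℂ) * x k) =
            ((Pi.single i 1 : Fin (n + 1) → ℤ) k : ℂ) * x k := by
          intro k
          rw [← hVb i k]
          push_cast
          rw [Finset.sum_mul]
          refine Finset.sum_congr rfl fun j _ => ?_
          ring
        rw [Finset.sum_congr rfl fun k _ => h5 k, Finset.sum_eq_single i]
        · simp
        · intro k _ hk
          simp [hk]
        · intro hi
          exact absurd (Finset.mem_univ i) hi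
      · rintro ⟨N, ⟨p, ξ'⟩, ⟨hp, hξ'⟩, h0⟩
        change p ∈ T at hp
        change ∀ j', Complex.exp (ξ' j') = S (i0.succAbove j') p at hξ'
        change ∑ k, f k s * MvPolynomial.eval ξ'
          (spec (MvPolynomial.bind₁ (sb N) (P k)) p.1 p.2) = 0 at h0
        set ξ : Fin (n + 1) → ℂ := Fin.insertNth i0 (th N) ξ' with hξ
        have hξ0 : ξ i0 = th N := Fin.insertNth_apply_same _ _ _
        have hξs : ∀ j', ξ (i0.succAbove j') = ξ' j' := fun j' =>
          Fin.insertNth_apply_succAbove _ _ _ _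
        have hexpξ : ∀ j, Complex.exp (ξ j) = S j p := by
          intro j
          rcases Fin.eq_self_or_eq_succAbove i0 j with rfl | ⟨j', rfl⟩
          · rw [hξ0, hexpth, hconst p hp]
          · rw [hξs, hξ']
        set x : Fin (n + 1) → ℂ := fun i => ∑ j, (V i j : ℂ) * ξ j with hx
        refine ⟨(p, x), ⟨hp, fun i => ?_⟩, ?_⟩
        · change Complex.exp (x i) = R i p
          rw [hx]
          simp only
          rw [Complex.exp_sum]
          have h5 : ∀ j, Complex.exp ((V i j : ℂ) * ξ j) = ∏ k, R k p ^ (V i j * b j k) := by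
            intro j
            rw [Complex.exp_int_mul, hexpξ, hS]
            simp only
            rw [← Finset.prod_zpow]
            refine Finset.prod_congr rfl fun k _ => ?_
            rw [← zpow_mul, mul_comm]
          rw [Finset.prod_congr rfl fun j _ => h5 j, Finset.prod_comm]
          have h6 : ∀ k, ∏ j, R k p ^ (V i j * b j k) =
              R k p ^ ((Pi.single i 1 : Fin (n + 1) → ℤ) k) := by
            intro k
            rw [← hVb i k]
            have : ∀ s : Finset (Fin (n + 1)), ∏ j ∈ s, R k p ^ (V i j * b j k) =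
                R k p ^ (∑ j ∈ s, V i j * b j k) := by
              classical
              intro s
              induction s using Finset.induction_on with
              | empty => simp
              | insert j s hj ih =>
                rw [Finset.prod_insert hj, Finset.sum_insert hj, ih, zpow_add₀ (hR0 k p hp)]
            exact this Finset.univ
          rw [Finset.prod_congr rfl fun k _ => h6 k, Finset.prod_eq_single i]
          · simp
          · intro k _ hk
            simp [hk]
          · intro hi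
            exact absurd (Finset.mem_univ i) hi
        · change ∑ k, f k s * MvPolynomial.eval x (spec (P k) p.1 p.2) = 0
          rw [← h0]
          refine Finset.sum_congr rfl fun k _ => ?_
          rw [eval_spec_bind]
          congr 2
          congr 1
          funext i
          rw [hsbe, hx]
          simp only
          rw [Fin.sum_univ_succAbove (fun j => (V i j : ℂ) * ξ j) i0, hξ0]
          congr 1
          refine Finset.sum_congr rfl fun j' _ => ?_
          rw [hξs]
    by_cases hall : ∀ N, (XN N).Countable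
    · left
      rw [hXeq]
      exact Set.countable_iUnion hall
    · right
      push Not at hall
      obtain ⟨N, hN⟩ := hall
      refine ((hdich N).resolve_left hN).mono ?_
      rw [hXeq]
      exact Set.compl_subset_compl.2 (Set.subset_iUnion XN N)

end W973.EC
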