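import Pool.Agent.W996.EC.Cv
import Pool.Agent.Helper272.Arn.J5652

/-! # Local parametrisation of the curve and arcs -/

set_option autoImplicit false

open Filter Topology Polynomial

namespace W973.EC

open Pool.Agent.W996.EC

theorem evalEval_sum (A : ℂ[X][X]) (z v : ℂ) :
    A.evalEval z v = ∑ i ∈ Finset.range (A.natDegree + 1), (A.coeff i).eval z * v ^ i := by
  rw [← map_evalRingHom_eval, eval_eq_sum_range' (n := A.natDegree + 1)]
  · simp [coeff_map]
  · exact Nat.lt_succ_of_le natDegree_map_le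

theorem cont_evalEval (A : ℂ[X][X]) : Continuous fun p : ℂ × ℂ => A.evalEval p.1 p.2 := by
  simp_rw [evalEval_sum]
  exact continuous_finsetSum _ fun i _ =>
    ((A.coeff i).continuous.comp continuous_fst).mul (continuous_snd.pow i)

theorem diff_evalEval (A : ℂ[X][X]) {φ : ℂ → ℂ} {s : Set ℂ} (hφ : DifferentiableOn ℂ φ s) :
    DifferentiableOn ℂ (fun z => A.evalEval z (φ z)) s := by
  simp_rw [evalEval_sum]
  exact DifferentiableOn.fun_sum fun i _ =>
    ((A.coeff i).differentiable.differentiableOn).mul (hφ.pow i)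

theorem t_loc : S_loc := by
  intro F h hc z0 v0 hp
  have hz0 : h.eval z0 ≠ 0 := hp.2
  obtain ⟨ρ, hρ, hball⟩ : ∃ ρ > 0, ∀ z ∈ Metric.ball z0 ρ, h.eval z ≠ 0 := by
    have h1 := (h.continuous.continuousAt (x := z0)).eventually_ne hz0
    obtain ⟨ρ, hρ, h1⟩ := Metric.eventually_nhds_iff_ball.1 h1
    exact ⟨ρ, hρ, h1⟩
  obtain ⟨α, hα1, hα2, hα3⟩ := AR.J5652.root_functions (H := Metric.ball z0 ρ) Metric.isOpen_ball
    (convex_ball _ _) F.natDegree (fun z => F.map (evalRingHom z))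
    (fun i => by
      simp only [coeff_map, coe_evalRingHom]
      exact (F.coeff i).differentiable.differentiableOn)
    (fun z hz => (hc.good z (hball z hz)).1) (fun z hz => (hc.good z (hball z hz)).2)
  have hα4 : ∀ z ∈ Metric.ball z0 ρ, ∀ w, F.evalEval z w = 0 ↔ ∃ j, w = α j z := by
    intro z hz w
    rw [← map_evalRingHom_eval]
    exact hα3 z hz w
  have hz0b : z0 ∈ Metric.ball z0 ρ := Metric.mem_ball_self hρ
  obtain ⟨j0, hj0⟩ := (hα4 z0 hz0b v0).1 hp.1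
  refine ⟨ρ, α j0, hρ, hα1 j0, hj0.symm,
    fun z hz => ⟨(hα4 z hz _).2 ⟨j0, rfl⟩, hball z hz⟩, ?_⟩
  have h1 : ∀ j, j ≠ j0 → ∀ᶠ p : ℂ × ℂ in 𝓝 (z0, v0), p.2 ≠ α j p.1 := by
    intro j hj
    have hcont : ContinuousAt (fun p : ℂ × ℂ => p.2 - α j p.1) (z0, v0) := by
      have h2 : ContinuousAt (α j) z0 :=
        ((hα1 j).differentiableAt (Metric.ball_mem_nhds z0 hρ)).continuousAt
      exact continuousAt_snd.sub (ContinuousAt.comp (f := Prod.fst) h2 continuousAt_fst)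
    have hne : v0 - α j z0 ≠ 0 := by
      rw [sub_ne_zero, hj0]
      intro he
      exact hj (hα2 z0 hz0b he.symm)
    filter_upwards [hcont.eventually_ne hne] with p hp
    exact sub_ne_zero.1 hp
  have h2 : ∀ᶠ p : ℂ × ℂ in 𝓝 (z0, v0), ∀ j, j ≠ j0 → p.2 ≠ α j p.1 := by
    rw [eventually_all]
    intro j
    by_cases hj : j = j0
    · exact Eventually.of_forall fun p hh => absurd hj hh
    · filter_upwards [h1 j hj] with p hp _
      exact hp
  have h3 : ∀ᶠ p : ℂ × ℂ in 𝓝 (z0, v0), p.1 ∈ Metric.ball z0 ρ :=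
    (continuousAt_fst (p := (z0, v0))).eventually (Metric.ball_mem_nhds z0 hρ)
  filter_upwards [h2, h3] with p h4 h5 hpT
  obtain ⟨j, hj⟩ := (hα4 p.1 h5 p.2).1 hpT.1
  by_cases hjj : j = j0
  · rw [hj, hjj]
  · exact absurd hj (h4 j hjj)

/-- regular functions are continuous -/
theorem reg_cont {T : Set (ℂ × ℂ)} {g : ℂ × ℂ → ℂ} (hg : Reg T g) : ContinuousOn g T := by
  obtain ⟨A, B, hAB⟩ := hg
  refine ContinuousOn.congr (f := fun p : ℂ × ℂ => A.evalEval p.1 p.2 / B.evalEval p.1 p.2) ?_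
    (fun p hp => (hAB p hp).2)
  exact (cont_evalEval A).continuousOn.div (cont_evalEval B).continuousOn (fun p hp => (hAB p hp).1)

/-- regular functions are holomorphic along holomorphic parametrisations -/
theorem reg_diff {T : Set (ℂ × ℂ)} {g : ℂ × ℂ → ℂ} (hg : Reg T g) {φ : ℂ → ℂ} {s : Set ℂ}
    (hφ : DifferentiableOn ℂ φ s) (hs : ∀ z ∈ s, (z, φ z) ∈ T) :
    DifferentiableOn ℂ (fun z => g (z, φ z)) s := by
  obtain ⟨A, B, hAB⟩ := hg
  refine DifferentiableOn.congr (f := fun z => A.evalEval z (φ z) / B.evalEval z (φ z)) ?_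
    (fun z hz => (hAB (z, φ z) (hs z hz)).2)
  exact (diff_evalEval A hφ).div (diff_evalEval B hφ) (fun z hz => (hAB (z, φ z) (hs z hz)).1)

/-- local parametrisation with logarithms -/
theorem loc_log (h1 : S_loc) {n : ℕ} {F : ℂ[X][X]} {h : ℂ[X]} {R : Fin n → ℂ × ℂ → ℂ}
    (hc : Cov F h) (hR : ∀ i, Reg (TT F h) (R i)) (hR0 : ∀ i, ∀ p ∈ TT F h, R i p ≠ 0)
    (p0 : ℂ × ℂ) (hp0 : p0 ∈ TT F h) :
    ∃ (ρ : ℝ) (φ : ℂ → ℂ) (x : ℂ → Fin n → ℂ), 0 < ρ ∧
      DifferentiableOn ℂ φ (Metric.ball p0.1 ρ) ∧ φ p0.1 = p0.2 ∧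
      (∀ i, DifferentiableOn ℂ (fun w => x w i) (Metric.ball p0.1 ρ)) ∧
      (∀ z ∈ Metric.ball p0.1 ρ, (z, φ z) ∈ TT F h ∧ ∀ i, Complex.exp (x z i) = R i (z, φ z)) ∧
      ∀ᶠ p in 𝓝 p0, p ∈ TT F h → p.2 = φ p.1 := by
  obtain ⟨ρ, φ, hρ, hφ, hφ0, hφT, hφe⟩ := h1 F h hc p0.1 p0.2 hp0
  set z0 := p0.1 with hz0
  have hpe : (z0, φ z0) = p0 := by rw [hφ0]
  have hrat : ∀ i, ∀ᶠ z in 𝓝 z0, R i (z, φ z) / R i p0 ∈ Complex.slitPlane := by
    intro i
    have hcont : ContinuousAt (fun z => R i (z, φ z) / R i p0) z0 :=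
      (((reg_diff (hR i) hφ hφT).differentiableAt
        (Metric.ball_mem_nhds z0 hρ)).continuousAt).div_const _
    apply hcont.eventually
    apply Complex.isOpen_slitPlane.mem_nhds
    change R i (z0, φ z0) / R i p0 ∈ Complex.slitPlane
    rw [hpe, div_self (hR0 i p0 hp0)]
    exact Complex.one_mem_slitPlane
  obtain ⟨ρ1, hρ1, hb1⟩ := Metric.eventually_nhds_iff_ball.1 (eventually_all.2 hrat)
  refine ⟨min ρ ρ1, φ, fun z i => Complex.log (R i (z, φ z) / R i p0) + Complex.log (R i p0),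
    lt_min hρ hρ1, hφ.mono (Metric.ball_subset_ball (min_le_left _ _)), hφ0, ?_, ?_, hφe⟩
  · intro i
    apply DifferentiableOn.add_const
    apply DifferentiableOn.clog
    · exact ((reg_diff (hR i) hφ hφT).mono
        (Metric.ball_subset_ball (min_le_left _ _))).div_const _
    · intro z hz
      exact hb1 z (Metric.ball_subset_ball (min_le_right _ _) hz) i
  · intro z hz
    have hzT := hφT z (Metric.ball_subset_ball (min_le_left _ _) hz)
    refine ⟨hzT, fun i => ?_⟩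
    rw [Complex.exp_add, Complex.exp_log (div_ne_zero (hR0 i _ hzT) (hR0 i _ hp0)),
      Complex.exp_log (hR0 i _ hp0), div_mul_cancel₀ _ (hR0 i _ hp0)]

/-- a holomorphic function on a ball whose real part is locally constant at one point is
constant -/
theorem const_of_re {z0 : ℂ} {ρ : ℝ} {f : ℂ → ℂ} (hf : DifferentiableOn ℂ f (Metric.ball z0 ρ))
    {z1 : ℂ} (hz1 : z1 ∈ Metric.ball z0 ρ) (hre : ∀ᶠ z in 𝓝 z1, (f z).re = (f z1).re) :
    ∀ z ∈ Metric.ball z0 ρ, f z = f z1 := by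
  have ha : AnalyticOnNhd ℂ f (Metric.ball z0 ρ) := hf.analyticOnNhd Metric.isOpen_ball
  have h1 : ∀ᶠ z in 𝓝 z1, f z = f z1 := by
    rcases (ha z1 hz1).eventually_constant_or_nhds_le_map_nhds with h2 | h2
    · exact h2
    · exfalso
      have h3 : {w : ℂ | w.re = (f z1).re} ∈ Filter.map f (𝓝 z1) := hre
      have h4 : ∀ᶠ w in 𝓝 (f z1), w.re = (f z1).re := h2 h3
      obtain ⟨ε, hε, h5⟩ := Metric.eventually_nhds_iff_ball.1 h4
      have h6 := h5 (f z1 + ((ε / 2 : ℝ) : ℂ)) (by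
        rw [Metric.mem_ball, dist_eq_norm, add_sub_cancel_left, Complex.norm_real,
          Real.norm_of_nonneg (by positivity)]
        linarith)
      rw [Complex.add_re, Complex.ofReal_re] at h6
      linarith
  have h7 : Set.EqOn f (fun _ => f z1) (Metric.ball z0 ρ) :=
    ha.eqOn_of_preconnected_of_eventuallyEq analyticOnNhd_const
      (convex_ball z0 ρ).isPreconnected hz1 h1
  exact fun z hz => h7 hz

/-- the real part of the linear form -/
noncomputable def uu {n : ℕ} (l : Fin n → ℝ) (R : Fin n → ℂ × ℂ → ℂ) (p : ℂ × ℂ) : ℝ :=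
  ∑ i, l i * Real.log ‖R i p‖

theorem re_eq {n : ℕ} (l : Fin n → ℝ) (R : Fin n → ℂ × ℂ → ℂ) (p : ℂ × ℂ) (x : Fin n → ℂ)
    (hx : ∀ i, Complex.exp (x i) = R i p) : (∑ i, (l i : ℂ) * x i).re = uu l R p := by
  rw [Complex.re_sum]
  unfold uu
  refine Finset.sum_congr rfl fun i _ => ?_
  rw [Complex.re_ofReal_mul, ← hx i, Complex.norm_exp, Real.log_exp]

theorem uu_cont {n : ℕ} (l : Fin n → ℝ) {R : Fin n → ℂ × ℂ → ℂ} {T : Set (ℂ × ℂ)}
    (hR : ∀ i, Reg T (R i)) (hR0 : ∀ i, ∀ p ∈ T, R i p ≠ 0) : ContinuousOn (uu l R) T := by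
  unfold uu
  refine continuousOn_finsetSum _ fun i _ => ?_
  refine continuousOn_const.mul ?_
  exact (reg_cont (hR i)).norm.log (fun p hp => (norm_ne_zero_iff.2 (hR0 i p hp)))

/-- locally constant near `q` in `T` -/
def LC (T : Set (ℂ × ℂ)) (u : ℂ × ℂ → ℝ) (q : ℂ × ℂ) : Prop := ∀ᶠ q' in 𝓝[T] q, u q' = u q

theorem lc_iff {n : ℕ} {F : ℂ[X][X]} {h : ℂ[X]} {R : Fin n → ℂ × ℂ → ℂ} (l : Fin n → ℝ)
    {z0 : ℂ} {ρ : ℝ} {φ : ℂ → ℂ} {x : ℂ → Fin n → ℂ}
    (hφ : DifferentiableOn ℂ φ (Metric.ball z0 ρ))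
    (hT : ∀ z ∈ Metric.ball z0 ρ, (z, φ z) ∈ TT F h ∧ ∀ i, Complex.exp (x z i) = R i (z, φ z))
    (q : ℂ × ℂ) (hq1 : q.1 ∈ Metric.ball z0 ρ) (hqT : q ∈ TT F h)
    (hq : ∀ᶠ p in 𝓝 q, p ∈ TT F h → p.2 = φ p.1) :
    LC (TT F h) (uu l R) q ↔
      ∀ᶠ z in 𝓝 q.1, (∑ i, (l i : ℂ) * x z i).re = (∑ i, (l i : ℂ) * x q.1 i).re := by
  have hq2 : q.2 = φ q.1 := hq.self_of_nhds hqT
  have hqe : (q.1, φ q.1) = q := by rw [← hq2]
  have hball : Metric.ball z0 ρ ∈ 𝓝 q.1 := Metric.isOpen_ball.mem_nhds hq1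
  have hre : ∀ z ∈ Metric.ball z0 ρ, (∑ i, (l i : ℂ) * x z i).re = uu l R (z, φ z) :=
    fun z hz => re_eq l R (z, φ z) (x z) (hT z hz).2
  have hreq : (∑ i, (l i : ℂ) * x q.1 i).re = uu l R q := by rw [hre q.1 hq1, hqe]
  constructor
  · intro hl
    have hcont : Tendsto (fun z => (z, φ z)) (𝓝 q.1) (𝓝[TT F h] q) := by
      rw [tendsto_nhdsWithin_iff]
      constructor
      · have : ContinuousAt (fun z => (z, φ z)) q.1 :=
          continuousAt_id.prodMk (hφ.differentiableAt hball).continuousAt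
        have h2 := this.tendsto
        simp only [hqe] at h2
        exact h2
      · filter_upwards [hball] with z hz
        exact (hT z hz).1
    filter_upwards [hcont.eventually hl, hball] with z hz hzb
    rw [hreq, hre z hzb]
    exact hz
  · intro hl
    unfold LC
    rw [eventually_nhdsWithin_iff]
    filter_upwards [hq, (continuousAt_fst (p := q)).eventually hl,
      (continuousAt_fst (p := q)).eventually hball] with p h1 h2 h3 hp
    have h4 : (p.1, φ p.1) = p := by rw [← h1 hp]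
    rw [hre p.1 h3, h4, hreq] at h2
    exact h2

theorem lc_locally {n : ℕ} (h1 : S_loc) {F : ℂ[X][X]} {h : ℂ[X]} {R : Fin n → ℂ × ℂ → ℂ}
    (l : Fin n → ℝ) (hc : Cov F h) (hR : ∀ i, Reg (TT F h) (R i))
    (hR0 : ∀ i, ∀ p ∈ TT F h, R i p ≠ 0) (p0 : ℂ × ℂ) (hp0 : p0 ∈ TT F h) :
    ∀ᶠ q in 𝓝[TT F h] p0, (LC (TT F h) (uu l R) q ↔ LC (TT F h) (uu l R) p0) := by
  obtain ⟨ρ, φ, x, hρ, hφ, hφ0, hx, hT, he⟩ := loc_log h1 hc hR hR0 p0 hp0
  have hf : DifferentiableOn ℂ (fun z => ∑ i, (l i : ℂ) * x z i) (Metric.ball p0.1 ρ) :=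
    DifferentiableOn.fun_sum fun i _ => (hx i).const_mul _
  have hp1 : p0.1 ∈ Metric.ball p0.1 ρ := Metric.mem_ball_self hρ
  rw [eventually_nhdsWithin_iff]
  filter_upwards [he.eventually_nhds, (continuousAt_fst (p := p0)).eventually
    (Metric.ball_mem_nhds p0.1 hρ)] with q h2 h3 hqT
  rw [lc_iff l hφ hT q h3 hqT h2, lc_iff l hφ hT p0 hp1 hp0 he]
  constructor
  · intro h4
    have h5 := const_of_re hf h3 h4
    filter_upwards [Metric.ball_mem_nhds p0.1 hρ] with z hz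
    have h6 := h5 z hz
    have h7 := h5 p0.1 hp1
    rw [h6, h7]
  · intro h4
    have h5 := const_of_re hf hp1 h4
    filter_upwards [Metric.isOpen_ball.mem_nhds h3] with z hz
    have h6 := h5 z hz
    have h7 := h5 q.1 h3
    rw [h6, h7]

/-- along an end with `l·a < 0` the linear form is unbounded above -/
theorem unbounded {n : ℕ} {T : Set (ℂ × ℂ)} {R : Fin n → ℂ × ℂ → ℂ} {t : ℂ → ℂ × ℂ} {c0 : ℝ}
    {a : Fin n → ℤ} {b : Fin n → ℂ} {hh : ℂ → Fin n → ℂ} {C0 : ℝ}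
    (hE : IsEnd T R t c0 a b hh C0) (l : Fin n → ℝ) (hl : ∑ i, l i * (a i : ℝ) < 0) (σ : ℝ) :
    ∃ p ∈ T, σ ≤ uu l R p := by
  obtain ⟨hP, -, hC, hexp⟩ := hE
  set s : ℝ := ∑ i, l i * (a i : ℝ) with hs
  set K : ℝ := ∑ i, (|l i| * ‖b i‖ + |l i| * |C0|) with hK
  -- choose a very negative real point
  obtain ⟨y, hy⟩ : ∃ y : ℝ, y < c0 ∧ y ≤ 0 ∧ σ + K ≤ s * y := by
    refine ⟨min (min (c0 - 1) 0) ((σ + K) / s), ?_, ?_, ?_⟩
    · exact lt_of_le_of_lt ((min_le_left _ _).trans (min_le_left _ _)) (by linarith)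
    · exact (min_le_left _ _).trans (min_le_right _ _)
    · have h1 : min (min (c0 - 1) 0) ((σ + K) / s) ≤ (σ + K) / s := min_le_right _ _
      have h2 := mul_le_mul_of_nonpos_left h1 hl.le
      rwa [mul_div_cancel₀ _ hl.ne] at h2
  obtain ⟨hy1, hy2, hy3⟩ := hy
  have hyre : ((y : ℂ)).re < c0 := by simpa using hy1
  refine ⟨t y, hP.1 y hyre, ?_⟩
  rw [← re_eq l R (t y) (fun i => (a i : ℂ) * y + b i + hh y i) (fun i => hexp y hyre i)]
  have h3 : (∑ i, (l i : ℂ) * ((a i : ℂ) * y + b i + hh y i)).re =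
      s * y + ∑ i, (l i * (b i).re + l i * (hh y i).re) := by
    rw [Complex.re_sum, hs, Finset.sum_mul, ← Finset.sum_add_distrib]
    refine Finset.sum_congr rfl fun i _ => ?_
    rw [Complex.re_ofReal_mul, Complex.add_re, Complex.add_re]
    have : ((a i : ℂ) * (y : ℂ)).re = (a i : ℝ) * y := by
      rw [show (a i : ℂ) = ((a i : ℝ) : ℂ) by push_cast; rfl, ← Complex.ofReal_mul,
        Complex.ofReal_re]
    rw [this]
    ring
  have h4 : -K ≤ ∑ i, (l i * (b i).re + l i * (hh y i).re) := by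
    rw [hK, ← Finset.sum_neg_distrib]
    refine Finset.sum_le_sum fun i _ => ?_
    have h5 : |l i * (b i).re| ≤ |l i| * ‖b i‖ := by
      rw [abs_mul]
      exact mul_le_mul_of_nonneg_left (Complex.abs_re_le_norm _) (abs_nonneg _)
    have h6 : |l i * (hh y i).re| ≤ |l i| * |C0| := by
      rw [abs_mul]
      apply mul_le_mul_of_nonneg_left _ (abs_nonneg _)
      refine (Complex.abs_re_le_norm _).trans ((norm_le_pi_norm (hh y) i).trans
        ((hC y hyre).trans ?_))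
      rw [Complex.ofReal_re]
      calc C0 * Real.exp y ≤ |C0| * Real.exp y :=
            mul_le_mul_of_nonneg_right (le_abs_self _) (Real.exp_pos _).le
        _ ≤ |C0| * 1 := mul_le_mul_of_nonneg_left (Real.exp_le_one_iff.2 hy2) (abs_nonneg _)
        _ = |C0| := mul_one _
    have h7 := neg_abs_le (l i * (b i).re)
    have h8 := neg_abs_le (l i * (hh y i).re)
    linarith
  rw [h3]
  linarith

theorem t_arc (h1 : S_loc) (h2 : S_conn) (h3 : S_pos) : S_arc := by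
  intro n F h R hc hI l hl σ
  obtain ⟨hR, hR0, -⟩ := id hI
  have hconn := h2 F h hc
  have hu := uu_cont l hR hR0
  have hbig : ∀ σ : ℝ, ∃ p ∈ TT F h, σ ≤ uu l R p := by
    intro σ
    obtain ⟨t, c0, a, b, hh, C0, hE, hneg⟩ := h3 n F h R hc hI l hl
    exact unbounded hE l hneg σ
  have hsmall : ∀ σ : ℝ, ∃ p ∈ TT F h, uu l R p ≤ σ := by
    intro σ
    obtain ⟨t, c0, a, b, hh, C0, hE, hneg⟩ := h3 n F h R hc hI (-l) (neg_ne_zero.2 hl)
    obtain ⟨p, hp, h4⟩ := unbounded hE (-l) hneg (-σ)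
    refine ⟨p, hp, ?_⟩
    have h5 : uu (-l) R p = - uu l R p := by
      unfold uu
      rw [← Finset.sum_neg_distrib]
      refine Finset.sum_congr rfl fun i _ => ?_
      rw [Pi.neg_apply, neg_mul]
    linarith
  obtain ⟨pa, hpa, hpa'⟩ := hsmall σ
  obtain ⟨pb, hpb, hpb'⟩ := hbig σ
  obtain ⟨p0, hp0, hσ⟩ := hconn.intermediate_value hpa hpb hu ⟨hpa', hpb'⟩
  have hnot : ¬ LC (TT F h) (uu l R) p0 := by
    intro hLC
    have : PreconnectedSpace (TT F h) := Subtype.preconnectedSpace hconn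
    have hlc : IsLocallyConstant (fun q : TT F h => LC (TT F h) (uu l R) q) := by
      rw [IsLocallyConstant.iff_eventually_eq]
      intro q
      have h4 := lc_locally h1 l hc hR hR0 q.1 q.2
      have h5 := (eventually_nhds_subtype_iff (TT F h) q
        (fun q' => LC (TT F h) (uu l R) q' ↔ LC (TT F h) (uu l R) q)).2 h4
      filter_upwards [h5] with q' hq'
      exact propext hq'
    have hall : ∀ q ∈ TT F h, LC (TT F h) (uu l R) q := by
      intro q hq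
      have h6 := hlc.apply_eq_of_preconnectedSpace ⟨q, hq⟩ ⟨p0, hp0⟩
      exact h6.symm ▸ hLC
    have hlc2 : IsLocallyConstant (fun q : TT F h => uu l R q) := by
      rw [IsLocallyConstant.iff_eventually_eq]
      intro q
      exact (eventually_nhds_subtype_iff (TT F h) q (fun q' => uu l R q' = uu l R q)).2
        (hall q.1 q.2)
    obtain ⟨pc, hpc, hpc'⟩ := hbig (uu l R pa + 1)
    have h7 := hlc2.apply_eq_of_preconnectedSpace ⟨pc, hpc⟩ ⟨pa, hpa⟩
    simp only at h7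
    linarith
  obtain ⟨ρ, φ, x, hρ, hφ, hφ0, hx, hT, he⟩ := loc_log h1 hc hR hR0 p0 hp0
  have hp1 : p0.1 ∈ Metric.ball p0.1 ρ := Metric.mem_ball_self hρ
  refine ⟨p0.1, ρ, φ, x, hρ, hx, hT, ?_, ?_⟩
  · intro hev
    apply hnot
    rw [lc_iff l hφ hT p0 hp1 hp0 he]
    filter_upwards [hev] with z hz
    rw [hz]
  · rw [re_eq l R (p0.1, φ p0.1) (x p0.1) (hT p0.1 hp1).2, hφ0]
    exact hσ

end W973.EC
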